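import Pool.Agent.H.MP_0bc917_co.A

namespace Pool.Agent.Results.MP_0bc917_co.Neg

/-- `p` contains the uniform distant pattern `dist_r(q)`. -/
def Contains {m n : ℕ} (r : ℕ) (q : Equiv.Perm (Fin m)) (p : Equiv.Perm (Fin n)) : Prop :=
  ∃ f : Fin m → Fin n, (∀ a b : Fin m, (a : ℕ) + 1 = b → (f a : ℕ) + r + 1 ≤ f b) ∧
    ∀ a b, p (f a) < p (f b) ↔ q a < q b

theorem result (n : ℕ) (hn : 8 ≤ n) :
    Nat.card {p : Equiv.Perm (Fin n) //
        ¬ Contains 1 (Equiv.swap (0 : Fin 4) 1 * Equiv.swap 2 3) p} <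
      Nat.card {p : Equiv.Perm (Fin n) // ¬ Contains 1 (Equiv.swap (2 : Fin 4) 3) p} := by
  classical
  obtain ⟨t, rfl⟩ : ∃ t, n = t + 8 := ⟨n - 8, by omega⟩
  rw [Nat.card_eq_fintype_card, Nat.card_eq_fintype_card, Fintype.card_subtype,
    Fintype.card_subtype]
  convert (Pool.Agent.H.MP_0bc917_co.main1 t).trans_le (Pool.Agent.H.MP_0bc917_co.main2 1 _)
    using 3 <;> rfl

end Pool.Agent.Results.MP_0bc917_co.Neg
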